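import Pool.Agent.Helper18.SU.Goals2

/-!
Packet SUBT (MP_f2ad72_co): every part `S` of an oriented rooted tree embeds in every set of
`3 |S| + C0` vertices of a tournament.
-/

set_option autoImplicit false

namespace Pool.Agent.Helper37.SU

open Pool.Agent.Helper18.SU

/-- The numbers. -/
theorem erf_le (s : ℕ) : 1 + 2 * (s : ℝ) + erf (s + 1) s ≤ 3 * s + 10000000 := by
  set u : ℝ := Real.sqrt (Real.sqrt ((s : ℝ) + 1)) with hu
  have hs0 : (0 : ℝ) ≤ s := Nat.cast_nonneg s
  have hs1 : (0 : ℝ) ≤ (s : ℝ) + 1 := by linarith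
  have h2 : u ^ 2 = Real.sqrt ((s : ℝ) + 1) := Real.sq_sqrt (Real.sqrt_nonneg _)
  have h4 : u ^ 4 = (s : ℝ) + 1 := by
    have : u ^ 4 = (u ^ 2) ^ 2 := by ring
    rw [this, h2, Real.sq_sqrt hs1]
  have hu0 : 0 ≤ u := Real.sqrt_nonneg _
  have hu1 : 1 ≤ u := by
    by_contra hc
    push Not at hc
    have h5 : u ^ 4 < 1 := pow_lt_one₀ hu0 hc (by norm_num)
    linarith
  have hlog : Real.log ((s : ℝ) + 1) ≤ 4 * (u - 1) := by
    rw [← h4, Real.log_pow]
    have := Real.log_le_sub_one_of_pos (by linarith : 0 < u)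
    push_cast
    linarith
  have hlog0 : 0 ≤ Real.log ((s : ℝ) + 1) := Real.log_nonneg (by linarith)
  have hsq : Real.sqrt s ≤ u ^ 2 := by
    rw [h2]
    exact Real.sqrt_le_sqrt (by linarith)
  have hsq0 : 0 ≤ Real.sqrt (s : ℝ) := Real.sqrt_nonneg _
  have hE : erf (s + 1) s ≤ 8 * u ^ 2 * (4 * (u - 1) + 3) +
      54 * (4 * (u - 1)) * (4 * (u - 1) + 6) := by
    unfold erf
    push_cast
    have e1 : 8 * Real.sqrt s * (Real.log ((s : ℝ) + 1) + 3) ≤
        8 * u ^ 2 * (4 * (u - 1) + 3) := by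
      apply mul_le_mul (by linarith) (by linarith) (by linarith) (by positivity)
    have e2 : 54 * Real.log ((s : ℝ) + 1) * (Real.log ((s : ℝ) + 1) + 6) ≤
        54 * (4 * (u - 1)) * (4 * (u - 1) + 6) := by
      apply mul_le_mul (by linarith) (by linarith) (by linarith) (by linarith)
    linarith
  have hs : (s : ℝ) = u ^ 4 - 1 := by linarith
  have key : 32 * u ^ 3 + 856 * u ^ 2 ≤ u ^ 4 + 9993600 := by
    rcases le_total u 60 with h | h
    · have a1 : u ^ 3 ≤ 60 ^ 3 := pow_le_pow_left₀ hu0 h 3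
      have a2 : u ^ 2 ≤ 60 ^ 2 := pow_le_pow_left₀ hu0 h 2
      have a3 : 0 ≤ u ^ 4 := by positivity
      linarith
    · have a1 : 0 ≤ u ^ 2 - 32 * u - 856 := by nlinarith
      have a2 : 0 ≤ u ^ 2 * (u ^ 2 - 32 * u - 856) := mul_nonneg (by positivity) a1
      nlinarith
  nlinarith

theorem SUBT (h1 : TRA_stmt) (h2 : NUM_stmt) : SUBT_stmt := by
  classical
  intro W V _ _ _ A hA r par dep hR sgn S X hX
  have hXpos : 0 < X.card := by
    have : 0 < C0 := by norm_num [C0]
    omega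
  obtain ⟨x0, hx0⟩ := Finset.card_pos.1 hXpos
  by_cases hS : S = ∅
  · subst hS
    exact ⟨fun _ => x0, by simp, by simp, by simp⟩
  have hs1 : 1 ≤ S.card := Finset.card_pos.2 (Finset.nonempty_iff_ne_empty.2 hS)
  -- the auxiliary tree
  let par' : Option {w // w ∈ S} → Option {w // w ∈ S} := fun o =>
    o.bind fun w => if h : w.1 ≠ r ∧ par w.1 ∈ S then some ⟨par w.1, h.2⟩ else none
  let sgn' : Option {w // w ∈ S} → Bool := fun o => o.elim true fun w => sgn w.1
  have hpn : par' none = none := rfl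
  have hpsome : ∀ (w : W) (hw : w ∈ S) (h : w ≠ r ∧ par w ∈ S),
      par' (some ⟨w, hw⟩) = some ⟨par w, h.2⟩ := by
    intro w hw h
    exact dif_pos h
  have hpnone : ∀ (w : W) (hw : w ∈ S), ¬ (w ≠ r ∧ par w ∈ S) →
      par' (some ⟨w, hw⟩) = none := by
    intro w hw h
    exact dif_neg h
  have hex : ∀ (n : ℕ) (w : W) (hw : w ∈ S), dep w ≤ n →
      ∃ k, par'^[k] (some ⟨w, hw⟩) = none := by
    intro n
    induction n with
    | zero =>
      intro w hw hd
      refine ⟨1, ?_⟩
      apply hpnone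
      rintro ⟨hwr, -⟩
      have := hR.2.2 w hwr
      omega
    | succ n ih =>
      intro w hw hd
      by_cases h : w ≠ r ∧ par w ∈ S
      · have hd' := hR.2.2 w h.1
        obtain ⟨k, hk⟩ := ih (par w) h.2 (by omega)
        refine ⟨k + 1, ?_⟩
        rw [Function.iterate_succ_apply, hpsome w hw h]
        exact hk
      · exact ⟨1, hpnone w hw h⟩
  have hex' : ∀ v : Option {w // w ∈ S}, ∃ k, par'^[k] v = none := by
    intro v
    cases v with
    | none => exact ⟨0, rfl⟩
    | some w => exact hex (dep w.1) w.1 w.2 le_rfl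
  let dep' : Option {w // w ∈ S} → ℕ := fun v => Nat.find (hex' v)
  have hRoot : Rooted none par' dep' := by
    refine ⟨?_, hpn, ?_⟩
    · exact (Nat.find_eq_zero (hex' none)).2 rfl
    · intro v hv
      exact (Nat.find_comp_succ (hex' v) (hex' (par' v)) hv).symm
  obtain ⟨R, L, hL1, hsR, hn1, hn2⟩ := h2 (S.card + 1) S.card 1 (by omega) (by omega) (by omega)
  have hz0 : (0 : ℝ) ≤ 1 + 2 * (S.card : ℝ) + erf (S.card + 1) S.card := by
    have : 0 ≤ erf (S.card + 1) S.card := by
      unfold erf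
      have h0 : (0 : ℝ) ≤ Real.log ((S.card + 1 : ℕ) : ℝ) :=
        Real.log_nonneg (by push_cast; linarith [(Nat.cast_nonneg S.card : (0 : ℝ) ≤ _)])
      positivity
    positivity
  have hzX : ⌈1 + 2 * (S.card : ℝ) + erf (S.card + 1) S.card⌉₊ ≤ X.card := by
    rw [Nat.ceil_le]
    refine (erf_le S.card).trans ?_
    have : ((3 * S.card + C0 : ℕ) : ℝ) ≤ X.card := by exact_mod_cast hX
    have hC : ((C0 : ℕ) : ℝ) = 10000000 := by norm_num [C0]
    push_cast at this
    rw [hC] at this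
    linarith
  obtain ⟨X', hX'sub, hX'card⟩ := Finset.exists_subset_card_eq hzX
  have hX'lt : (X'.card : ℝ) < 1 + 2 * (S.card : ℝ) + erf (S.card + 1) S.card + 1 := by
    rw [hX'card]
    exact Nat.ceil_lt_add_one hz0
  have hX'ge : 1 + 2 * (S.card : ℝ) + erf (S.card + 1) S.card ≤ X'.card := by
    rw [hX'card]
    exact Nat.le_ceil _
  have hK : ∀ Y : Finset V, 1 ≤ Y.card → ∃ f : Option {w // w ∈ S} → V,
      Emb A none par' sgn' {none} Y f := by
    intro Y hY
    obtain ⟨y, hy⟩ := Finset.card_pos.1 hY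
    refine ⟨fun _ => y, fun v _ => hy, ?_, ?_⟩
    · intro u hu v hv _
      rw [Finset.mem_singleton] at hu hv
      rw [hu, hv]
    · intro v hv hne
      exact absurd (Finset.mem_singleton.1 hv) hne
  obtain ⟨f', hf1, hf2, hf3⟩ := h1 (Option {w // w ∈ S}) V A hA none par' dep' hRoot {none}
    (Finset.mem_singleton_self _)
    (fun v hv => by
      rw [Finset.mem_singleton] at hv
      rw [hv, hpn]
      exact Finset.mem_singleton_self _)
    sgn' 1 hK S.card R L hL1
    (by rw [Finset.card_singleton, Fintype.card_option, Fintype.card_coe])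
    hsR X' (by push_cast at hn2; linarith) (by push_cast at hn1 ⊢; linarith)
  refine ⟨fun w => if h : w ∈ S then f' (some ⟨w, h⟩) else x0, ?_, ?_, ?_⟩
  · intro v hv
    dsimp only
    rw [dif_pos hv]
    exact hX'sub (hf1 _ (Finset.mem_univ _))
  · intro u hu v hv huv
    dsimp only at huv
    rw [dif_pos hu, dif_pos hv] at huv
    have := hf2 _ (Finset.mem_univ _) _ (Finset.mem_univ _) huv
    have h3 := Option.some.inj this
    exact congrArg Subtype.val h3
  · intro v hv hvr hpv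
    dsimp only
    rw [dif_pos hv, dif_pos hpv]
    have h3 := hf3 (some ⟨v, hv⟩) (Finset.mem_univ _) (by simp) (Finset.mem_univ _)
    rw [hpsome v hv ⟨hvr, hpv⟩] at h3
    exact h3

end Pool.Agent.Helper37.SU
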