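import Pool.Agent.Helper18.SU.Goals

/-!
Sumner's conjecture, transfer theorem: all levels (EMB) and the rooted transfer theorem (TRA).
-/

set_option autoImplicit false

namespace Pool.Agent.Helper37.SU

open Pool.Agent.Helper18.SU

theorem EMB (h1 : PMQX_stmt) (h2 : LST_stmt) : EMB_stmt := by
  intro W V _ _ _ A hA r par dep hR K hrK hK lev sgn col hlev hcol F hF L hL j
  induction j with
  | zero =>
    intro X hX hsum
    have hK0 : upTo lev 0 = K := by
      ext v
      simp only [upTo, Finset.mem_filter, Finset.mem_univ, true_and, Nat.le_zero]
      exact hlev.1 v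
    rw [hK0]
    apply hF
    simp only [Finset.range_zero, Finset.sum_empty, add_zero] at hsum
    exact_mod_cast hsum
  | succ j ih =>
    intro X hX hsum
    obtain ⟨P, Q, M, hP, hQ, hM, hPQ, hPM, hQM, hdeg, hcard⟩ :=
      h1 V A hA X (need (cnt lev col (j + 1) true)) (need (cnt lev col (j + 1) false)) L hL hX
    rw [Finset.sum_range_succ] at hsum
    have hMX : (M.card : ℝ) ≤ X.card := by exact_mod_cast Finset.card_le_card hM
    have hc : (X.card : ℝ) ≤
        M.card + cost L (cnt lev col (j + 1) true) (cnt lev col (j + 1) false) := by
      unfold cost
      linarith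
    obtain ⟨f, hf⟩ := ih M (by linarith) (by linarith)
    obtain ⟨f', hf'⟩ := h2 W V A hA r par dep hR K hrK hK lev sgn col hlev hcol j
      (fun b => if b then P else Q) M f (by simpa using hPQ)
      (by
        intro d
        cases d
        · simpa using hQM
        · simpa using hPM) hf
      (by
        classical
        intro x hx d
        cases d
        · have h := (hdeg x hx).2
          convert h using 2
          ext y
          rw [Finset.mem_filter, Finset.mem_filter]
          simp [Arc]
        · have h := (hdeg x hx).1
          convert h using 2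
          ext y
          rw [Finset.mem_filter, Finset.mem_filter]
          simp [Arc])
    refine ⟨f', ?_, hf'.2.1, hf'.2.2⟩
    intro v hv
    have := hf'.1 v hv
    simp only [Finset.mem_union] at this
    rcases this with (h | h) | h
    · exact hM h
    · exact hP (by simpa using h)
    · exact hQ (by simpa using h)

theorem TRA (h1 : LEV_stmt) (h2 : COL_stmt) (h3 : EMB_stmt) (h4 : SUM_stmt) : TRA_stmt := by
  intro W V _ _ _ A hA r par dep hR K hrK hK sgn F hF s R L hL hsK hsR X hX hsum
  obtain ⟨lev, hlev, hb⟩ := h1 W r par dep hR K hrK hK
  obtain ⟨col, hcol⟩ := h2 W r par dep hR K hrK hK lev sgn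
  have hup : upTo lev R = Finset.univ := by
    ext v
    simp only [upTo, Finset.mem_filter, Finset.mem_univ, true_and, iff_true]
    by_cases hv : v ∈ K
    · rw [(hlev.1 v).2 hv]
      omega
    · have h := hb v hv
      have h' : 2 ^ (lev v - 1) < 2 ^ R := by omega
      have := (Nat.pow_lt_pow_iff_right (by norm_num : 1 < 2)).1 h'
      omega
  rw [← hup]
  apply h3 W V A hA r par dep hR K hrK hK lev sgn col hlev hcol F hF L (by linarith) R X hX
  have hcount : ∑ i ∈ Finset.range R, (cnt lev col (i + 1) true + cnt lev col (i + 1) false) ≤ s := by
    have e1 : ∀ i, cnt lev col (i + 1) true + cnt lev col (i + 1) false =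
        (Finset.univ.filter (fun v => lev v = i + 1)).card := by
      intro i
      unfold cnt
      rw [← Finset.card_union_of_disjoint]
      · congr 1
        ext v
        simp only [Finset.mem_union, Finset.mem_filter, Finset.mem_univ, true_and]
        cases col v <;> simp
      · rw [Finset.disjoint_left]
        intro v hv hv'
        simp only [Finset.mem_filter, Finset.mem_univ, true_and] at hv hv'
        rw [hv.2] at hv'
        exact absurd hv'.2 (by simp)
    have e2 : ∑ i ∈ Finset.range R, (cnt lev col (i + 1) true + cnt lev col (i + 1) false) =
        ((Finset.range R).biUnion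
          (fun i => Finset.univ.filter (fun v => lev v = i + 1))).card := by
      rw [Finset.card_biUnion]
      · exact Finset.sum_congr rfl (fun i _ => e1 i)
      · intro i _ k _ hik
        rw [Function.onFun, Finset.disjoint_left]
        intro v hv hv'
        simp only [Finset.mem_filter, Finset.mem_univ, true_and] at hv hv'
        omega
    rw [e2]
    have e3 : ((Finset.range R).biUnion
          (fun i => Finset.univ.filter (fun v => lev v = i + 1))) ⊆ Kᶜ := by
      intro v hv
      simp only [Finset.mem_biUnion, Finset.mem_range, Finset.mem_filter, Finset.mem_univ,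
        true_and] at hv
      obtain ⟨i, _, hi⟩ := hv
      rw [Finset.mem_compl]
      intro hvK
      have := (hlev.1 v).2 hvK
      omega
    calc _ ≤ (Kᶜ).card := Finset.card_le_card e3
      _ = Fintype.card W - K.card := Finset.card_compl K
      _ ≤ s := by omega
  have hs := h4 R (fun i => cnt lev col (i + 1) true) (fun i => cnt lev col (i + 1) false) s L hL
    hcount
  linarith

end Pool.Agent.Helper37.SU
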